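import Pool.Agent.helper74.MQ.Spec

set_option autoImplicit false

open Complex Metric Set Filter Topology MeasureTheory MPS

noncomputable section

namespace MQ

lemma PLA_exp {w w' : ℂ} (h : Complex.exp w = Complex.exp w') :
    ∃ m : ℤ, w.im - w'.im = m * (2 * Real.pi) := by
  rw [Complex.exp_eq_exp_iff_exists_int] at h
  obtain ⟨m, hm⟩ := h
  refine ⟨m, ?_⟩
  rw [hm]
  simp

lemma PLA_nomul {x : ℝ} (h1 : 0 < x) (h2 : x < 2 * Real.pi) (m : ℤ) :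
    x ≠ m * (2 * Real.pi) := by
  intro h
  have hp := Real.pi_pos
  have h3 : (0 : ℝ) < m := by
    by_contra hc
    push Not at hc
    nlinarith
  have h4 : (m : ℝ) < 1 := by
    by_contra hc
    push Not at hc
    nlinarith
  have h5 : (0 : ℤ) < m := by exact_mod_cast h3
  have h6 : m < 1 := by exact_mod_cast h4
  omega

lemma PLA_nomul' {x : ℝ} (h1 : -(2 * Real.pi) < x) (h2 : x < 0) (m : ℤ) :
    x ≠ m * (2 * Real.pi) := by
  intro h
  refine PLA_nomul (x := -x) (by linarith) (by linarith) (-m) ?_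
  push_cast
  linarith

section
variable {k : ℕ} [NeZero k]

lemma PLA_hatcont {b g : ZMod k → ℂ} {i : ZMod k} {ψ : ℂ → ℂ} (h : PN b g i ψ 1) :
    ContinuousOn (hat ψ) (HP 0) := by
  have h1 : ContinuousOn ψ (ball 0 1) := h.diff.continuousOn
  refine h1.comp Complex.continuous_exp.continuousOn ?_
  intro w hw
  simp only [HP, mem_setOf_eq, neg_zero] at hw
  rw [mem_ball_zero_iff, Complex.norm_exp]
  rw [← Real.exp_zero]
  exact Real.exp_lt_exp.2 hw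

lemma PLA_hatav {b g : ZMod k → ℂ} {i : ZMod k} {ψ : ℂ → ℂ} (h : PN b g i ψ 1)
    {w : ℂ} (hw : w.re < 0) (j : ZMod k) : hat ψ w ≠ b j := by
  refine h.av _ ?_ (Complex.exp_ne_zero _) j
  rw [mem_ball_zero_iff, Complex.norm_exp]
  rw [← Real.exp_zero]
  exact Real.exp_lt_exp.2 hw

/-- a horizontal box -/
def PLA_box (a c : ℝ) : Set ℂ := {w | w.re < 0 ∧ a < w.im ∧ w.im < c}

lemma PLA_box_conv (a c : ℝ) : Convex ℝ (PLA_box a c) := by
  have h1 : Convex ℝ {w : ℂ | w.re < 0} := convex_halfSpace_re_lt 0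
  have h2 : Convex ℝ {w : ℂ | a < w.im} := convex_halfSpace_im_gt a
  have h3 : Convex ℝ {w : ℂ | w.im < c} := convex_halfSpace_im_lt c
  exact h1.inter (h2.inter h3)

lemma PLA_sector {b g : ZMod k → ℂ} {i : ZMod k} {ψ : ℂ → ℂ} (h : PN b g i ψ 1) (a c : ℝ) :
    IsPreconnected (hat ψ '' PLA_box a c) := by
  refine (PLA_box_conv a c).isPreconnected.image _ ((PLA_hatcont h).mono ?_)
  intro w hw
  simp only [HP, mem_setOf_eq, neg_zero]
  exact hw.1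

lemma PLA_trajconn {b g : ZMod k → ℂ} {ψ ψ' : ℂ → ℂ} {S : ℂ} {a c : ℝ} {χ : ℂ → ℂ}
    (h : IsStrip b g ψ ψ' S a c χ) {y : ℝ} (h1 : a < y) (h2 : y < c) :
    IsPreconnected ((fun t : ℝ => χ ((t : ℂ) + y * I)) '' univ) := by
  refine isPreconnected_univ.image _ ?_
  have h3 : ContinuousOn χ {w : ℂ | a < w.im ∧ w.im < c} := h.nat.diff.continuousOn
  refine h3.comp (by fun_prop) ?_
  intro t _
  simp [h1, h2]

end

theorem PLA (hL : LDIS_stmt) (hD : DLOC_stmt) (hJ : JMP_stmt) : PLA_stmt := by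
  intro k _ b g ψ hF i l S₀ S₁ S₂ y₀ y₁ y₂ e hil he ⟨χ₀, H0⟩ ⟨χ₁, H1⟩ ⟨χ₂, H2⟩ h01 h12 h20
    k01 k12 k20
  have hpi := Real.pi_pos
  have hpn : ∀ j, PN b g j (ψ j) 1 := fun j => (hF.mx j).pn
  set D : ℂ → ℂ := fun p => Nn χ₀ y₀ p - Nn χ₁ y₁ p with hDdef
  -- constancy
  have hDc : ∀ A : Set ℂ, IsPreconnected A → b i ∉ A → b l ∉ A →
      (∀ t : ℝ, χ₀ ((t : ℂ) + y₀ * I) ∉ A) → (∀ t : ℝ, χ₁ ((t : ℂ) + y₁ * I) ∉ A) →
      ∀ p ∈ A, ∀ p' ∈ A, D p = D p' :=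
    (hD k b g ψ hF i l S₀ S₁ y₀ y₁ e χ₀ χ₁ hil he H0 H1).1
  have hcont1 : ∀ p : ℂ, p ≠ b i → p ≠ b l → (∀ t : ℝ, χ₁ ((t : ℂ) + y₁ * I) ≠ p) →
      ContinuousAt (Nn χ₁ y₁) p :=
    (hD k b g ψ hF i l S₀ S₁ y₀ y₁ e χ₀ χ₁ hil he H0 H1).2
  -- disjointness
  have im0 : ∀ (t y : ℝ), ((t : ℂ) + y * I).im = y := by intro t y; simp
  have re0 : ∀ (t y : ℝ), ((t : ℂ) + y * I).re = t := by intro t y; simp
  -- strips: trajectories of χ (any of the three) versus 0, 1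
  have av0 : ∀ (S : ℂ) (y : ℝ) (χ : ℂ → ℂ), IsStrip b g (ψ i) (ψ l) S (y - e) (y + e) χ →
      ∀ w : ℂ, y - e < w.im → w.im < y + e → (∀ m : ℤ, y₀ - w.im ≠ m * (2 * Real.pi)) →
      ∀ t : ℝ, χ₀ ((t : ℂ) + y₀ * I) ≠ χ w := by
    intro S y χ hS w hw1 hw2 hm t ht
    have h := (hL k b g ψ hF i l l S₀ S (y₀ - e) (y₀ + e) (y - e) (y + e) χ₀ χ hil hil H0 hS).1
      _ w (by rw [im0]; linarith) (by rw [im0]; linarith) hw1 hw2 ht
    obtain ⟨m, hm'⟩ := PLA_exp h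
    rw [im0] at hm'
    exact hm m hm'
  have av1 : ∀ (S : ℂ) (y : ℝ) (χ : ℂ → ℂ), IsStrip b g (ψ i) (ψ l) S (y - e) (y + e) χ →
      ∀ w : ℂ, y - e < w.im → w.im < y + e → (∀ m : ℤ, y₁ - w.im ≠ m * (2 * Real.pi)) →
      ∀ t : ℝ, χ₁ ((t : ℂ) + y₁ * I) ≠ χ w := by
    intro S y χ hS w hw1 hw2 hm t ht
    have h := (hL k b g ψ hF i l l S₁ S (y₁ - e) (y₁ + e) (y - e) (y + e) χ₁ χ hil hil H1 hS).1
      _ w (by rw [im0]; linarith) (by rw [im0]; linarith) hw1 hw2 ht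
    obtain ⟨m, hm'⟩ := PLA_exp h
    rw [im0] at hm'
    exact hm m hm'
  -- sectors at `b i`
  have seci : ∀ a c : ℝ, (∀ x : ℝ, a < x → x < c → (∀ m : ℤ, x - y₀ ≠ m * (2 * Real.pi)) ∧
      (∀ m : ℤ, x - y₁ ≠ m * (2 * Real.pi))) →
      ∀ p ∈ hat (ψ i) '' PLA_box a c, ∀ p' ∈ hat (ψ i) '' PLA_box a c, D p = D p' := by
    intro a c hx
    refine hDc _ (PLA_sector (hpn i) a c) ?_ ?_ ?_ ?_
    · rintro ⟨w, hw, hw'⟩
      exact PLA_hatav (hpn i) hw.1 i hw'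
    · rintro ⟨w, hw, hw'⟩
      exact PLA_hatav (hpn i) hw.1 l hw'
    · rintro t ⟨w, hw, hw'⟩
      have h := (hL k b g ψ hF i l l S₀ S₀ (y₀ - e) (y₀ + e) (y₀ - e) (y₀ + e) χ₀ χ₀ hil hil
        H0 H0).2.1 _ w (by rw [im0]; linarith) (by rw [im0]; linarith) hw.1 hw'.symm
      obtain ⟨m, hm'⟩ := PLA_exp h
      rw [im0] at hm'
      exact (hx _ hw.2.1 hw.2.2).1 m hm'
    · rintro t ⟨w, hw, hw'⟩
      have h := (hL k b g ψ hF i l l S₁ S₁ (y₁ - e) (y₁ + e) (y₁ - e) (y₁ + e) χ₁ χ₁ hil hil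
        H1 H1).2.1 _ w (by rw [im0]; linarith) (by rw [im0]; linarith) hw.1 hw'.symm
      obtain ⟨m, hm'⟩ := PLA_exp h
      rw [im0] at hm'
      exact (hx _ hw.2.1 hw.2.2).2 m hm'
  -- sector at `b l`
  have secl : ∀ p ∈ hat (ψ l) '' PLA_box (S₁.im - y₁) (S₀.im - y₀ + 2 * Real.pi),
      ∀ p' ∈ hat (ψ l) '' PLA_box (S₁.im - y₁) (S₀.im - y₀ + 2 * Real.pi), D p = D p' := by
    refine hDc _ (PLA_sector (hpn l) _ _) ?_ ?_ ?_ ?_
    · rintro ⟨w, hw, hw'⟩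
      exact PLA_hatav (hpn l) hw.1 i hw'
    · rintro ⟨w, hw, hw'⟩
      exact PLA_hatav (hpn l) hw.1 l hw'
    · rintro t ⟨w, hw, hw'⟩
      have h := (hL k b g ψ hF i l l S₀ S₀ (y₀ - e) (y₀ + e) (y₀ - e) (y₀ + e) χ₀ χ₀ hil hil
        H0 H0).2.2.1 _ w (by rw [im0]; linarith) (by rw [im0]; linarith) hw.1 hw'.symm
      obtain ⟨m, hm'⟩ := PLA_exp h
      rw [Complex.sub_im, im0] at hm'
      have h1 := hw.2.1
      have h2 := hw.2.2
      exact PLA_nomul (x := w.im - (S₀.im - y₀)) (by linarith) (by linarith) m hm'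
    · rintro t ⟨w, hw, hw'⟩
      have h := (hL k b g ψ hF i l l S₁ S₁ (y₁ - e) (y₁ + e) (y₁ - e) (y₁ + e) χ₁ χ₁ hil hil
        H1 H1).2.2.1 _ w (by rw [im0]; linarith) (by rw [im0]; linarith) hw.1 hw'.symm
      obtain ⟨m, hm'⟩ := PLA_exp h
      rw [Complex.sub_im, im0] at hm'
      have h1 := hw.2.1
      have h2 := hw.2.2
      exact PLA_nomul (x := w.im - (S₁.im - y₁)) (by linarith) (by linarith) m hm'
  -- trajectories
  have traj : ∀ (S : ℂ) (y : ℝ) (χ : ℂ → ℂ), IsStrip b g (ψ i) (ψ l) S (y - e) (y + e) χ →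
      ∀ x : ℝ, y - e < x → x < y + e → (∀ m : ℤ, y₀ - x ≠ m * (2 * Real.pi)) →
      (∀ m : ℤ, y₁ - x ≠ m * (2 * Real.pi)) → ∀ t t' : ℝ,
      D (χ ((t : ℂ) + x * I)) = D (χ ((t' : ℂ) + x * I)) := by
    intro S y χ hS x hx1 hx2 hm0 hm1 t t'
    refine hDc _ (PLA_trajconn hS hx1 hx2) ?_ ?_ ?_ ?_ _ ⟨t, mem_univ _, rfl⟩ _
      ⟨t', mem_univ _, rfl⟩
    · rintro ⟨u, -, hu⟩
      exact hS.nat.av _ ⟨by rw [im0]; exact hx1, by rw [im0]; exact hx2⟩ i hu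
    · rintro ⟨u, -, hu⟩
      exact hS.nat.av _ ⟨by rw [im0]; exact hx1, by rw [im0]; exact hx2⟩ l hu
    · rintro u ⟨u', -, hu'⟩
      refine av0 S y χ hS ((u' : ℂ) + x * I) (by rw [im0]; exact hx1) (by rw [im0]; exact hx2)
        ?_ u hu'.symm
      intro m; rw [im0]; exact hm0 m
    · rintro u ⟨u', -, hu'⟩
      refine av1 S y χ hS ((u' : ℂ) + x * I) (by rw [im0]; exact hx1) (by rw [im0]; exact hx2)
        ?_ u hu'.symm
      intro m; rw [im0]; exact hm1 m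
  -- periodicity of hats
  have hper : ∀ (j : ZMod k) (w : ℂ), hat (ψ j) (w + 2 * Real.pi * I) = hat (ψ j) w := by
    intro j w
    simp only [hat]
    rw [Complex.exp_periodic w]
  -- P versus Q'
  have hPQ' : ∀ p ∈ hat (ψ i) '' PLA_box y₀ y₁,
      ∀ q ∈ hat (ψ l) '' PLA_box (S₁.im - y₁) (S₀.im - y₀ + 2 * Real.pi), D p = D q := by
    intro p hp q hq
    obtain ⟨s, hs0, hse, hs1, hs2⟩ : ∃ s : ℝ, 0 < s ∧ s < e ∧ s < y₁ - y₀ ∧
        s < S₀.im - y₀ + 2 * Real.pi - (S₁.im - y₁) := by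
      have hm1 : 0 < min e (min (y₁ - y₀) (S₀.im - y₀ + 2 * Real.pi - (S₁.im - y₁))) :=
        lt_min he (lt_min (by linarith) (by linarith))
      refine ⟨min e (min (y₁ - y₀) (S₀.im - y₀ + 2 * Real.pi - (S₁.im - y₁))) / 2, by linarith,
        ?_, ?_, ?_⟩
      · have := min_le_left e (min (y₁ - y₀) (S₀.im - y₀ + 2 * Real.pi - (S₁.im - y₁)))
        linarith
      · have := (min_le_right e _).trans
          (min_le_left (y₁ - y₀) (S₀.im - y₀ + 2 * Real.pi - (S₁.im - y₁)))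
        linarith
      · have := (min_le_right e _).trans
          (min_le_right (y₁ - y₀) (S₀.im - y₀ + 2 * Real.pi - (S₁.im - y₁)))
        linarith
    have hT := traj S₀ y₀ χ₀ H0 (y₀ + s) (by linarith) (by linarith)
      (fun m => PLA_nomul' (x := y₀ - (y₀ + s)) (by linarith) (by linarith) m)
      (fun m => PLA_nomul (x := y₁ - (y₀ + s)) (by linarith) (by linarith) m) (-1)
      (max 0 S₀.re + 1)
    have e1 : χ₀ (((-1 : ℝ) : ℂ) + (y₀ + s : ℝ) * I) = hat (ψ i) (((-1 : ℝ) : ℂ) + (y₀ + s : ℝ) * I) := by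
      refine H0.left _ ?_ ?_ ?_
      · rw [im0]; linarith
      · rw [im0]; linarith
      · rw [re0]; norm_num
    have e2 : χ₀ (((max 0 S₀.re + 1 : ℝ) : ℂ) + (y₀ + s : ℝ) * I) =
        hat (ψ l) (S₀ - (((max 0 S₀.re + 1 : ℝ) : ℂ) + (y₀ + s : ℝ) * I)) := by
      refine H0.right _ ?_ ?_ ?_
      · rw [im0]; linarith
      · rw [im0]; linarith
      · rw [re0]
        have := le_max_right 0 S₀.re
        linarith
    rw [e1, e2] at hT
    rw [← hper l] at hT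
    rw [seci y₀ y₁ ?_ p hp (hat (ψ i) (((-1 : ℝ) : ℂ) + (y₀ + s : ℝ) * I)) ?_, hT]
    · refine secl _ ?_ q hq
      refine ⟨_, ⟨?_, ?_, ?_⟩, rfl⟩
      · rw [Complex.add_re, Complex.sub_re, re0]
        have := le_max_right 0 S₀.re
        simp
        linarith
      · rw [Complex.add_im, Complex.sub_im, im0]
        simp
        linarith
      · rw [Complex.add_im, Complex.sub_im, im0]
        simp
        linarith
    · intro x hx1 hx2
      refine ⟨fun m => PLA_nomul (x := x - y₀) (by linarith) (by linarith) m,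
        fun m => PLA_nomul' (x := x - y₁) (by linarith) (by linarith) m⟩
    · refine ⟨_, ⟨?_, ?_, ?_⟩, rfl⟩
      · rw [re0]; norm_num
      · rw [im0]; linarith
      · rw [im0]; linarith
  -- Q versus Q'
  have hQQ' : ∀ p ∈ hat (ψ i) '' PLA_box y₁ (y₀ + 2 * Real.pi),
      ∀ q ∈ hat (ψ l) '' PLA_box (S₁.im - y₁) (S₀.im - y₀ + 2 * Real.pi), D p = D q := by
    intro p hp q hq
    have hT := traj S₂ y₂ χ₂ H2 y₂ (by linarith) (by linarith)
      (fun m => PLA_nomul' (x := y₀ - y₂) (by linarith) (by linarith) m)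
      (fun m => PLA_nomul' (x := y₁ - y₂) (by linarith) (by linarith) m) (-1)
      (max 0 S₂.re + 1)
    have e1 : χ₂ (((-1 : ℝ) : ℂ) + (y₂ : ℝ) * I) = hat (ψ i) (((-1 : ℝ) : ℂ) + (y₂ : ℝ) * I) := by
      refine H2.left _ ?_ ?_ ?_
      · rw [im0]; linarith
      · rw [im0]; linarith
      · rw [re0]; norm_num
    have e2 : χ₂ (((max 0 S₂.re + 1 : ℝ) : ℂ) + (y₂ : ℝ) * I) =
        hat (ψ l) (S₂ - (((max 0 S₂.re + 1 : ℝ) : ℂ) + (y₂ : ℝ) * I)) := by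
      refine H2.right _ ?_ ?_ ?_
      · rw [im0]; linarith
      · rw [im0]; linarith
      · rw [re0]
        have := le_max_right 0 S₂.re
        linarith
    rw [e1, e2] at hT
    rw [seci y₁ (y₀ + 2 * Real.pi) ?_ p hp (hat (ψ i) (((-1 : ℝ) : ℂ) + (y₂ : ℝ) * I)) ?_, hT]
    · refine secl _ ?_ q hq
      refine ⟨_, ⟨?_, ?_, ?_⟩, rfl⟩
      · rw [Complex.sub_re, re0]
        have := le_max_right 0 S₂.re
        linarith
      · rw [Complex.sub_im, im0]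
        linarith
      · rw [Complex.sub_im, im0]
        linarith
    · intro x hx1 hx2
      refine ⟨fun m => PLA_nomul (x := x - y₀) (by linarith) (by linarith) m,
        fun m => PLA_nomul (x := x - y₁) (by linarith) (by linarith) m⟩
    · refine ⟨_, ⟨?_, ?_, ?_⟩, rfl⟩
      · rw [re0]; norm_num
      · rw [im0]; linarith
      · rw [im0]; linarith
  -- a point of Q'
  have hq0 : hat (ψ l) (((-1 : ℝ) : ℂ) + ((S₁.im - y₁ + (S₀.im - y₀ + 2 * Real.pi)) / 2 : ℝ) * I) ∈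
      hat (ψ l) '' PLA_box (S₁.im - y₁) (S₀.im - y₀ + 2 * Real.pi) := by
    refine ⟨_, ⟨?_, ?_, ?_⟩, rfl⟩
    · rw [re0]; norm_num
    · rw [im0]; linarith
    · rw [im0]; linarith
  set q0 := hat (ψ l) (((-1 : ℝ) : ℂ) + ((S₁.im - y₁ + (S₀.im - y₀ + 2 * Real.pi)) / 2 : ℝ) * I)
    with hq0def
  -- the jump
  have J := hJ k b g ψ hF i l S₀ y₀ e (-1) χ₀ hil he (by norm_num) H0
  have hst : ContinuousAt χ₀ (((-1 : ℝ) : ℂ) + (y₀ : ℝ) * I) := by
    have hop : IsOpen {w : ℂ | y₀ - e < w.im ∧ w.im < y₀ + e} :=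
      (isOpen_lt continuous_const Complex.continuous_im).inter
        (isOpen_lt Complex.continuous_im continuous_const)
    refine (H0.nat.diff.continuousOn).continuousAt (hop.mem_nhds ?_)
    exact ⟨by rw [im0]; linarith, by rw [im0]; linarith⟩
  have hmem0 : ((-1 : ℝ) : ℂ) + (y₀ : ℝ) * I ∈ {w : ℂ | y₀ - e < w.im ∧ w.im < y₀ + e} :=
    ⟨by rw [im0]; linarith, by rw [im0]; linarith⟩
  have hN1 : ContinuousAt (Nn χ₁ y₁) (χ₀ (((-1 : ℝ) : ℂ) + (y₀ : ℝ) * I)) := by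
    refine hcont1 _ (H0.nat.av _ hmem0 i) (H0.nat.av _ hmem0 l) ?_
    refine av1 S₀ y₀ χ₀ H0 _ (by rw [im0]; linarith) (by rw [im0]; linarith) ?_
    intro m
    rw [im0]
    exact PLA_nomul (x := y₁ - y₀) (by linarith) (by linarith) m
  have hcomp : ContinuousAt (fun w : ℂ => Nn χ₁ y₁ (χ₀ w)) (((-1 : ℝ) : ℂ) + (y₀ : ℝ) * I) :=
    ContinuousAt.comp (f := χ₀) (g := Nn χ₁ y₁) hN1 hst
  have hplus : Tendsto (fun s : ℝ => ((-1 : ℝ) : ℂ) + (y₀ + s : ℝ) * I) (𝓝[>] 0)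
      (𝓝 (((-1 : ℝ) : ℂ) + (y₀ : ℝ) * I)) := by
    have hc : Continuous (fun s : ℝ => ((-1 : ℝ) : ℂ) + (y₀ + s : ℝ) * I) := by fun_prop
    have := hc.tendsto 0
    simp only [add_zero] at this
    exact this.mono_left nhdsWithin_le_nhds
  have hminus : Tendsto (fun s : ℝ => ((-1 : ℝ) : ℂ) + (y₀ - s : ℝ) * I) (𝓝[>] 0)
      (𝓝 (((-1 : ℝ) : ℂ) + (y₀ : ℝ) * I)) := by
    have hc : Continuous (fun s : ℝ => ((-1 : ℝ) : ℂ) + (y₀ - s : ℝ) * I) := by fun_prop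
    have := hc.tendsto 0
    simp only [sub_zero] at this
    exact this.mono_left nhdsWithin_le_nhds
  have hNp := (hcomp.tendsto.comp hplus).sub (hcomp.tendsto.comp hminus)
  have hJ2 := J.sub hNp
  simp only [sub_self, sub_zero] at hJ2
  -- eventually zero
  have hev : ∀ᶠ s : ℝ in 𝓝[>] 0, s < min e (min (y₁ - y₀) (y₀ + 2 * Real.pi - y₁)) := by
    have hm1 : 0 < min e (min (y₁ - y₀) (y₀ + 2 * Real.pi - y₁)) :=
      lt_min he (lt_min (by linarith) (by linarith))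
    exact (eventually_lt_nhds hm1).filter_mono nhdsWithin_le_nhds
  have hz : Tendsto (fun s : ℝ => (0 : ℂ)) (𝓝[>] (0 : ℝ)) (𝓝 (2 * Real.pi * I)) := by
    refine hJ2.congr' ?_
    filter_upwards [hev, self_mem_nhdsWithin] with s hs hs0
    have hs0' : 0 < s := hs0
    have hse : s < e := lt_of_lt_of_le hs (min_le_left _ _)
    have hs1 : s < y₁ - y₀ := lt_of_lt_of_le hs ((min_le_right _ _).trans (min_le_left _ _))
    have hs2 : s < y₀ + 2 * Real.pi - y₁ :=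
      lt_of_lt_of_le hs ((min_le_right _ _).trans (min_le_right _ _))
    have e1 : χ₀ (((-1 : ℝ) : ℂ) + (y₀ + s : ℝ) * I) = hat (ψ i) (((-1 : ℝ) : ℂ) + (y₀ + s : ℝ) * I) := by
      refine H0.left _ ?_ ?_ ?_
      · rw [im0]; linarith
      · rw [im0]; linarith
      · rw [re0]; norm_num
    have e2 : χ₀ (((-1 : ℝ) : ℂ) + (y₀ - s : ℝ) * I) = hat (ψ i) (((-1 : ℝ) : ℂ) + (y₀ - s : ℝ) * I) := by
      refine H0.left _ ?_ ?_ ?_
      · rw [im0]; linarith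
      · rw [im0]; linarith
      · rw [re0]; norm_num
    have f1 : D (χ₀ (((-1 : ℝ) : ℂ) + (y₀ + s : ℝ) * I)) = D q0 := by
      rw [e1]
      refine hPQ' _ ⟨_, ⟨?_, ?_, ?_⟩, rfl⟩ _ hq0
      · rw [re0]; norm_num
      · rw [im0]; linarith
      · rw [im0]; linarith
    have f2 : D (χ₀ (((-1 : ℝ) : ℂ) + (y₀ - s : ℝ) * I)) = D q0 := by
      rw [e2, ← hper i]
      refine hQQ' _ ⟨_, ⟨?_, ?_, ?_⟩, rfl⟩ _ hq0
      · rw [Complex.add_re, re0]
        simp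
      · rw [Complex.add_im, im0]
        simp
        linarith
      · rw [Complex.add_im, im0]
        simp
        linarith
    have f3 : D (χ₀ (((-1 : ℝ) : ℂ) + (y₀ + s : ℝ) * I)) -
        D (χ₀ (((-1 : ℝ) : ℂ) + (y₀ - s : ℝ) * I)) = 0 := by rw [f1, f2, sub_self]
    simp only [hDdef] at f3
    simp only [Function.comp]
    rw [← f3]
    ring
  have hfin := tendsto_nhds_unique hz tendsto_const_nhds
  have : (2 * Real.pi * I : ℂ) ≠ 0 := Complex.two_pi_I_ne_zero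
  exact this hfin

end MQ
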