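import Pool.Agent.helper74.MQ.Spec
import Pool.Agent.helper70.MP.NOSL

set_option autoImplicit false

open Complex Metric Set Filter Topology MeasureTheory MPS

noncomputable section

namespace MQ

section
variable {k : ℕ} [NeZero k]

/-- the hat of a natural map at a pole is natural on the left half plane -/
lemma DPR_hatnat {b g : ZMod k → ℂ} {i : ZMod k} {ψ : ℂ → ℂ} (h : PN b g i ψ 1) :
    IsNat b g (hat ψ) (HP 0) := by
  have hb : ∀ w ∈ HP 0, Complex.exp w ∈ ball (0 : ℂ) 1 := by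
    intro w hw
    simp only [HP, mem_setOf_eq, neg_zero] at hw
    rw [mem_ball_zero_iff, Complex.norm_exp, ← Real.exp_zero]
    exact Real.exp_lt_exp.2 hw
  have hda : ∀ w ∈ HP 0, DifferentiableAt ℂ ψ (Complex.exp w) := fun w hw =>
    (h.diff _ (hb w hw)).differentiableAt (isOpen_ball.mem_nhds (hb w hw))
  refine ⟨?_, ?_, ?_⟩
  · exact h.diff.comp Complex.differentiable_exp.differentiableOn hb
  · intro w hw j
    exact h.av _ (hb w hw) (Complex.exp_ne_zero _) j
  · intro w hw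
    have hd : deriv (hat ψ) w = deriv ψ (Complex.exp w) * Complex.exp w := by
      have h1 := (hda w hw).hasDerivAt.comp w (Complex.hasDerivAt_exp w)
      exact h1.deriv
    have h2 := h.eq _ (hb w hw) (Complex.exp_ne_zero _)
    rw [hd]
    show _ * BB b g (ψ (Complex.exp w)) = 1
    rw [← h2]
    ring

lemma DPR_neg {b g : ZMod k → ℂ} {i : ZMod k} {ψ : ℂ → ℂ} (h : PN b g i ψ 1) {y d : ℝ}
    (hd : d < 0) : ¬ Slit b g ψ d y := by
  unfold Slit
  rw [not_not]
  refine ⟨-d, by linarith, hat ψ, NOSL_mono (DPR_hatnat h) ?_, fun w _ => rfl⟩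
  rintro w (hw | hw)
  · exact hw
  · simp only [HP, mem_setOf_eq, neg_zero]
    have := hw.2
    linarith

lemma DPR_down {b g : ZMod k → ℂ} {ψ : ℂ → ℂ} {y d d' : ℝ} (hd : d' ≤ d)
    (h : ¬ Slit b g ψ d y) : ¬ Slit b g ψ d' y := by
  unfold Slit at h ⊢
  rw [not_not] at h ⊢
  obtain ⟨e, he, χ, hn, hχ⟩ := h
  refine ⟨e, he, χ, NOSL_mono hn ?_, hχ⟩
  rintro w (hw | hw)
  · exact Or.inl hw
  · exact Or.inr ⟨hw.1, by have := hw.2; linarith⟩

lemma DPR_up {b g : ZMod k → ℂ} {ψ : ℂ → ℂ} {y d : ℝ}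
    (h : ¬ Slit b g ψ d y) : ∃ e > (0 : ℝ), ¬ Slit b g ψ (d + e) y := by
  unfold Slit at h
  rw [not_not] at h
  obtain ⟨e, he, χ, hn, hχ⟩ := h
  refine ⟨e / 2, by linarith, ?_⟩
  unfold Slit
  rw [not_not]
  refine ⟨e / 2, by linarith, χ, NOSL_mono hn ?_, hχ⟩
  rintro w (hw | hw)
  · exact Or.inl hw
  · exact Or.inr ⟨by have := hw.1; linarith, by have := hw.2; linarith⟩

lemma DPR_one {b g : ZMod k → ℂ} {i : ZMod k} {ψ : ℂ → ℂ} (h : PN b g i ψ 1) {y d : ℝ}
    (hs : Slit b g ψ d y) : ∃ T, T ≤ d ∧ Dep b g ψ y T := by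
  set A : Set ℝ := {t | Slit b g ψ t y} with hA
  have hbd : BddBelow A := by
    refine ⟨0, ?_⟩
    intro t ht
    by_contra hc
    push Not at hc
    exact DPR_neg h hc ht
  have hne : A.Nonempty := ⟨d, hs⟩
  refine ⟨sInf A, csInf_le hbd hs, ?_, ?_⟩
  · by_contra hc
    obtain ⟨e, he, h1⟩ := DPR_up hc
    have h2 : sInf A + e ≤ sInf A := by
      refine le_csInf hne ?_
      intro t ht
      by_contra hc'
      push Not at hc'
      exact DPR_down hc'.le h1 ht
    linarith
  · intro t ht hc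
    exact absurd (csInf_le hbd hc) (not_le.2 ht)

lemma DPR_flat {b g : ZMod k → ℂ} {ψ : ℂ → ℂ} {y T r : ℝ} (hT : 0 ≤ T) (hr : T < r)
    (h : Flat b g ψ y r) : ¬ Slit b g ψ T y := by
  obtain ⟨χ, hn, hχ⟩ := h
  unfold Slit
  rw [not_not]
  have hc : Tendsto (fun e : ℝ => (T + e) ^ 2 + e ^ 2) (𝓝[>] 0) (𝓝 (T ^ 2)) := by
    have h1 : Continuous (fun e : ℝ => (T + e) ^ 2 + e ^ 2) := by fun_prop
    have h2 := h1.tendsto 0
    simp only [add_zero, ne_eq, OfNat.ofNat_ne_zero, not_false_eq_true, zero_pow] at h2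
    exact h2.mono_left nhdsWithin_le_nhds
  have h3 : T ^ 2 < r ^ 2 := by nlinarith
  obtain ⟨e, he1, he2⟩ := ((hc.eventually (eventually_lt_nhds h3)).and
    (self_mem_nhdsWithin (s := Ioi (0 : ℝ)))).exists
  have he0 : 0 < e := he2
  refine ⟨e, he0, χ, NOSL_mono hn ?_, hχ⟩
  rintro w (hw | hw)
  · exact Or.inl hw
  · by_cases hre : w.re < 0
    · exact Or.inl (by simpa [HP] using hre)
    · refine Or.inr ?_
      push Not at hre
      rw [mem_ball, dist_eq_norm]
      have h4 : ‖w - (y : ℂ) * I‖ ^ 2 < r ^ 2 := by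
        rw [Complex.sq_norm, Complex.normSq_apply]
        simp only [Complex.sub_re, Complex.sub_im, Complex.mul_re, Complex.mul_im,
          Complex.ofReal_re, Complex.ofReal_im, Complex.I_re, Complex.I_im]
        have h5 := hw.1
        have h6 := hw.2
        have h7 : (w.im - y) ^ 2 ≤ e ^ 2 := by
          have := abs_lt.1 h5
          nlinarith
        have h8 : w.re ^ 2 ≤ (T + e) ^ 2 := by nlinarith
        nlinarith
      have hr0 : 0 < r := by linarith
      exact lt_of_pow_lt_pow_left₀ 2 hr0.le h4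

end

theorem DPR (hNO : NOSL_stmt) (hNF : NFM_stmt) : DPR_stmt := by
  intro k _ b g ψ hF i
  have hp : PN b g i (ψ i) 1 := (hF.mx i).pn
  obtain ⟨hn1, hn2, hn3, hn4, hn5⟩ := hNO k b g i (ψ i) hp
  have h3 : ∀ y T, Dep b g (ψ i) y T → 0 ≤ T := by
    intro y T hT
    by_contra hc
    push Not at hc
    exact DPR_neg hp hc hT.1
  refine ⟨fun y d hs => DPR_one hp hs, ?_, h3, ?_, ?_, ?_, ?_⟩
  · intro y T T' hT hT'
    rcases lt_trichotomy T T' with h | h | h
    · exact absurd hT.1 (hT'.2 T h)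
    · exact h
    · exact absurd hT'.1 (hT.2 T' h)
  · intro y T m hT
    refine ⟨(hn3 y T m).2 hT.1, ?_⟩
    intro t ht hc
    exact hT.2 t ht ((hn3 y t m).1 hc)
  · intro y T r hfl hT
    by_contra hc
    push Not at hc
    exact DPR_flat (h3 y T hT) hc hfl hT.1
  · intro y d hd hall
    refine hn1 y d hd ?_
    intro y' hy' hs
    obtain ⟨T, hTd, hT⟩ := DPR_one hp hs
    have := hall y' T hy' hT
    linarith
  · obtain ⟨y, hy⟩ := hNF k b g i (ψ i) (hF.mx i)
    refine ⟨y, ⟨?_, ?_⟩, hy⟩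
    · by_contra hc
      unfold Slit at hc
      rw [not_not] at hc
      obtain ⟨e, he, χ, hn, hχ⟩ := hc
      refine hy e he ⟨χ, NOSL_mono hn ?_, hχ⟩
      rintro w (hw | hw)
      · exact Or.inl hw
      · refine Or.inr ?_
        rw [mem_ball, dist_eq_norm] at hw
        have h4 := (Complex.abs_re_le_norm (w - (y : ℂ) * I)).trans_lt hw
        have h5 := (Complex.abs_im_le_norm (w - (y : ℂ) * I)).trans_lt hw
        simp only [Complex.sub_re, Complex.sub_im, Complex.mul_re, Complex.mul_im,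
          Complex.ofReal_re, Complex.ofReal_im, Complex.I_re, Complex.I_im] at h4 h5
        have h6 := (abs_lt.1 h4).2
        refine ⟨?_, ?_⟩
        · have : w.im - (y * 1 + 0 * 0) = w.im - y := by ring
          rwa [this] at h5
        · linarith
    · intro t ht
      exact DPR_neg hp ht

end MQ
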